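import Pool.Agent.Helper71.LW.Defs

/-!
# Lu-Wenzel: the trace step (part B)
-/

set_option autoImplicit false

namespace Pool.Agent.Helper14.LW

open Matrix Pool.Agent.Helper71.LW

variable {K : Type} [RCLike K] {n : ℕ}

/-- The matrix as a Euclidean vector. -/
noncomputable def toE (A : Matrix (Fin n) (Fin n) K) : EuclideanSpace K (Fin n × Fin n) :=
  WithLp.toLp 2 (fun p => A p.1 p.2)

lemma norm_toE (A : Matrix (Fin n) (Fin n) K) : ‖toE A‖ ^ 2 = fro2 A := by
  rw [EuclideanSpace.norm_sq_eq, fro2, Fintype.sum_prod_type]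
  rfl

lemma inner_toE (B A : Matrix (Fin n) (Fin n) K) :
    inner K (toE B) (toE A) = (Bᴴ * A).trace := by
  rw [PiLp.inner_apply, Matrix.trace]
  simp only [Matrix.diag_apply, Matrix.mul_apply, Matrix.conjTranspose_apply]
  rw [Fintype.sum_prod_type, Finset.sum_comm]
  refine Finset.sum_congr rfl fun i _ => Finset.sum_congr rfl fun j _ => ?_
  simp [toE, mul_comm]

lemma fro2_eq (A : Matrix (Fin n) (Fin n) K) : ((fro2 A : ℝ) : K) = (Aᴴ * A).trace := by
  rw [← inner_toE, ← norm_toE, inner_self_eq_norm_sq_to_K]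
  norm_cast

lemma fro2_nonneg (A : Matrix (Fin n) (Fin n) K) : 0 ≤ fro2 A := by
  unfold fro2; positivity

lemma fro2_conj (U A : Matrix (Fin n) (Fin n) K) (hU : U * Uᴴ = 1) :
    fro2 (Uᴴ * A * U) = fro2 A := by
  have h : ((fro2 (Uᴴ * A * U) : ℝ) : K) = ((fro2 A : ℝ) : K) := by
    rw [fro2_eq, fro2_eq]
    have : (Uᴴ * A * U)ᴴ * (Uᴴ * A * U) = Uᴴ * (Aᴴ * A) * U := by
      rw [Matrix.conjTranspose_mul, Matrix.conjTranspose_mul, Matrix.conjTranspose_conjTranspose]
      calc Uᴴ * (Aᴴ * U) * (Uᴴ * A * U) = Uᴴ * Aᴴ * (U * Uᴴ) * A * U := by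
            simp only [Matrix.mul_assoc]
        _ = Uᴴ * (Aᴴ * A) * U := by rw [hU]; simp only [Matrix.mul_assoc, Matrix.mul_one]
    rw [this, Matrix.trace_mul_comm, ← Matrix.mul_assoc, hU, Matrix.one_mul]
  exact_mod_cast h

/-- The key identity. -/
lemma comm_anticomm (W Z : Matrix (Fin n) (Fin n) K) (g : Fin n → ℝ)
    (hG : W * Wᴴ + Wᴴ * W = Matrix.diagonal (fun i => (g i : K))) :
    fro2 (Wᴴ * Z - Z * Wᴴ) + fro2 (W * Z + Z * W) = ∑ i, ∑ j, (g i + g j) * ‖Z i j‖ ^ 2 := by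
  have h1 : (((fro2 (Wᴴ * Z - Z * Wᴴ) + fro2 (W * Z + Z * W) : ℝ)) : K)
      = (Zᴴ * (W * Wᴴ + Wᴴ * W) * Z).trace + (Zᴴ * Z * (W * Wᴴ + Wᴴ * W)).trace := by
    rw [RCLike.ofReal_add, fro2_eq, fro2_eq]
    simp only [Matrix.conjTranspose_sub, Matrix.conjTranspose_add, Matrix.conjTranspose_mul,
      Matrix.conjTranspose_conjTranspose, Matrix.mul_add, Matrix.add_mul, Matrix.mul_sub,
      Matrix.sub_mul, Matrix.trace_add, Matrix.trace_sub]
    have e1 : (W * Zᴴ * (Wᴴ * Z)).trace = (Zᴴ * Wᴴ * (Z * W)).trace := by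
      rw [Matrix.trace_mul_comm]
      calc (Wᴴ * Z * (W * Zᴴ)).trace = (Wᴴ * Z * W * Zᴴ).trace := by
            simp only [Matrix.mul_assoc]
        _ = (Zᴴ * (Wᴴ * Z * W)).trace := Matrix.trace_mul_comm _ _
        _ = _ := by simp only [Matrix.mul_assoc]
    have e2 : (Zᴴ * W * (Z * Wᴴ)).trace = (Wᴴ * Zᴴ * (W * Z)).trace := by
      calc (Zᴴ * W * (Z * Wᴴ)).trace = (Zᴴ * W * Z * Wᴴ).trace := by
            simp only [Matrix.mul_assoc]
        _ = (Wᴴ * (Zᴴ * W * Z)).trace := Matrix.trace_mul_comm _ _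
        _ = _ := by simp only [Matrix.mul_assoc]
    have e3 : (W * Zᴴ * (Z * Wᴴ)).trace = (Zᴴ * Z * (Wᴴ * W)).trace := by
      calc (W * Zᴴ * (Z * Wᴴ)).trace = (W * (Zᴴ * Z * Wᴴ)).trace := by
            simp only [Matrix.mul_assoc]
        _ = (Zᴴ * Z * Wᴴ * W).trace := Matrix.trace_mul_comm _ _
        _ = _ := by simp only [Matrix.mul_assoc]
    have e4 : (Wᴴ * Zᴴ * (Z * W)).trace = (Zᴴ * Z * (W * Wᴴ)).trace := by
      calc (Wᴴ * Zᴴ * (Z * W)).trace = (Wᴴ * (Zᴴ * Z * W)).trace := by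
            simp only [Matrix.mul_assoc]
        _ = (Zᴴ * Z * W * Wᴴ).trace := Matrix.trace_mul_comm _ _
        _ = _ := by simp only [Matrix.mul_assoc]
    have e5 : (Zᴴ * W * (Wᴴ * Z)).trace = (Zᴴ * (W * Wᴴ) * Z).trace := by
      simp only [Matrix.mul_assoc]
    have e6 : (Zᴴ * Wᴴ * (W * Z)).trace = (Zᴴ * (Wᴴ * W) * Z).trace := by
      simp only [Matrix.mul_assoc]
    rw [e1, e2, e3, e4, e5, e6]
    ring
  rw [hG] at h1
  have h2 : (Zᴴ * Matrix.diagonal (fun i => (g i : K)) * Z).trace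
      = ((∑ i, ∑ j, g i * ‖Z i j‖ ^ 2 : ℝ) : K) := by
    rw [Matrix.trace]
    simp only [Matrix.diag_apply]
    have e : ∀ x, (Zᴴ * Matrix.diagonal (fun i => (g i : K)) * Z) x x
        = ∑ i, star (Z i x) * (g i : K) * Z i x := by
      intro x
      rw [Matrix.mul_apply]
      refine Finset.sum_congr rfl fun i _ => ?_
      rw [Matrix.mul_diagonal, Matrix.conjTranspose_apply]
    simp only [e]
    rw [Finset.sum_comm, RCLike.ofReal_sum]
    refine Finset.sum_congr rfl fun i _ => ?_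
    rw [RCLike.ofReal_sum]
    refine Finset.sum_congr rfl fun j _ => ?_
    have := RCLike.conj_mul (Z i j)
    push_cast
    rw [← this]
    simp only [RCLike.star_def]
    ring
  have h3 : (Zᴴ * Z * Matrix.diagonal (fun i => (g i : K))).trace
      = ((∑ i, ∑ j, g j * ‖Z i j‖ ^ 2 : ℝ) : K) := by
    rw [Matrix.trace]
    simp only [Matrix.diag_apply]
    have e : ∀ x, (Zᴴ * Z * Matrix.diagonal (fun i => (g i : K))) x x
        = ∑ i, star (Z i x) * Z i x * (g x : K) := by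
      intro x
      rw [Matrix.mul_diagonal, Matrix.mul_apply, Finset.sum_mul]
      refine Finset.sum_congr rfl fun i _ => ?_
      rw [Matrix.conjTranspose_apply]
    simp only [e]
    rw [Finset.sum_comm, RCLike.ofReal_sum]
    refine Finset.sum_congr rfl fun i _ => ?_
    rw [RCLike.ofReal_sum]
    refine Finset.sum_congr rfl fun j _ => ?_
    have := RCLike.conj_mul (Z i j)
    push_cast
    rw [← this]
    simp only [RCLike.star_def]
    ring
  rw [h2, h3, ← RCLike.ofReal_add] at h1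
  have h4 := RCLike.ofReal_injective h1
  rw [h4, ← Finset.sum_add_distrib]
  refine Finset.sum_congr rfl fun i _ => ?_
  rw [← Finset.sum_add_distrib]
  refine Finset.sum_congr rfl fun j _ => ?_
  ring

lemma inner_comm (W Z Y : Matrix (Fin n) (Fin n) K) :
    (Zᴴ * (W * Y - Y * W)).trace = ((Wᴴ * Z - Z * Wᴴ)ᴴ * Y).trace := by
  simp only [Matrix.conjTranspose_sub, Matrix.conjTranspose_mul,
    Matrix.conjTranspose_conjTranspose, Matrix.mul_sub, Matrix.sub_mul, Matrix.trace_sub]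
  have e1 : (Zᴴ * (W * Y)).trace = (Zᴴ * W * Y).trace := by rw [Matrix.mul_assoc]
  have e2 : (Zᴴ * (Y * W)).trace = (W * Zᴴ * Y).trace := by
    rw [← Matrix.mul_assoc, Matrix.trace_mul_comm, ← Matrix.mul_assoc]
  rw [e1, e2]

lemma nu_nonneg_of_weight (W : Matrix (Fin n) (Fin n) K) (g : Fin n → ℝ)
    (hG : W * Wᴴ + Wᴴ * W = Matrix.diagonal (fun i => (g i : K)))
    (f : Fin n → Fin n → ℝ) (hf : Weight W g f) (i : Fin n) : 0 ≤ nu W := by
  have hg : 0 ≤ g i := by
    have h := congrFun (congrFun hG i) i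
    simp only [Matrix.add_apply, Matrix.mul_apply, Matrix.conjTranspose_apply,
      Matrix.diagonal_apply_eq] at h
    have h' : ((g i : ℝ) : K) = ((∑ j, ‖W i j‖ ^ 2 + ∑ j, ‖W j i‖ ^ 2 : ℝ) : K) := by
      rw [← h]
      push_cast
      congr 1
      · refine Finset.sum_congr rfl fun j _ => ?_
        rw [RCLike.star_def, RCLike.mul_conj]
      · refine Finset.sum_congr rfl fun j _ => ?_
        rw [RCLike.star_def, RCLike.conj_mul]
    rw [RCLike.ofReal_injective h']
    positivity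
  have h1 := hf.adm i i
  have h2 := hf.le_one i i
  nlinarith [mul_nonneg (sub_nonneg.2 h2) (add_nonneg hg hg)]

/-- The main estimate for one matrix `Y`. -/
lemma weighted_le (W : Matrix (Fin n) (Fin n) K) (g : Fin n → ℝ)
    (hG : W * Wᴴ + Wᴴ * W = Matrix.diagonal (fun i => (g i : K)))
    (f : Fin n → Fin n → ℝ) (hf : Weight W g f) (Y : Matrix (Fin n) (Fin n) K) (hν : 0 ≤ nu W) :
    ∑ i, ∑ j, (1 - f i j) * ‖(W * Y - Y * W) i j‖ ^ 2 ≤ nu W * fro2 Y := by
  set C := W * Y - Y * W with hC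
  set Z : Matrix (Fin n) (Fin n) K := Matrix.of (fun i j => (((1 - f i j : ℝ)) : K) * C i j)
    with hZ
  set q := ∑ i, ∑ j, (1 - f i j) * ‖C i j‖ ^ 2 with hq
  have hq0 : 0 ≤ q := Finset.sum_nonneg fun i _ => Finset.sum_nonneg fun j _ =>
    mul_nonneg (sub_nonneg.2 (hf.le_one i j)) (by positivity)
  have h1 : (Zᴴ * C).trace = ((q : ℝ) : K) := by
    rw [hq, Matrix.trace]
    simp only [Matrix.diag_apply, Matrix.mul_apply, Matrix.conjTranspose_apply]
    rw [Finset.sum_comm, RCLike.ofReal_sum]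
    refine Finset.sum_congr rfl fun i _ => ?_
    rw [RCLike.ofReal_sum]
    refine Finset.sum_congr rfl fun j _ => ?_
    have := RCLike.conj_mul (C i j)
    rw [hZ]
    simp only [Matrix.of_apply, star_mul', RCLike.star_def, RCLike.conj_ofReal]
    rw [mul_assoc, this]
    push_cast
    ring
  have h2 : ‖(Zᴴ * C).trace‖ ^ 2 ≤ fro2 (Wᴴ * Z - Z * Wᴴ) * fro2 Y := by
    rw [hC, inner_comm, ← inner_toE, ← norm_toE, ← norm_toE, ← mul_pow]
    exact pow_le_pow_left₀ (norm_nonneg _) (norm_inner_le_norm _ _) 2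
  have h3 : fro2 (Wᴴ * Z - Z * Wᴴ) ≤ nu W * q := by
    have := comm_anticomm W Z g hG
    have h4 : fro2 (Wᴴ * Z - Z * Wᴴ) ≤ ∑ i, ∑ j, (g i + g j) * ‖Z i j‖ ^ 2 := by
      have := fro2_nonneg (W * Z + Z * W)
      linarith
    refine h4.trans ?_
    rw [hq, Finset.mul_sum]
    refine Finset.sum_le_sum fun i _ => ?_
    rw [Finset.mul_sum]
    refine Finset.sum_le_sum fun j _ => ?_
    have hfj : 0 ≤ 1 - f i j := sub_nonneg.2 (hf.le_one i j)
    have hz : ‖Z i j‖ ^ 2 = (1 - f i j) ^ 2 * ‖C i j‖ ^ 2 := by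
      rw [hZ]
      simp only [Matrix.of_apply, norm_mul, RCLike.norm_ofReal]
      rw [mul_pow, sq_abs]
    rw [hz]
    have h5 := mul_le_mul_of_nonneg_right (hf.adm i j)
      (mul_nonneg hfj (sq_nonneg ‖C i j‖))
    nlinarith [h5]
  have h6 : q ^ 2 ≤ nu W * q * fro2 Y := by
    rw [h1, RCLike.norm_ofReal, sq_abs] at h2
    exact h2.trans (mul_le_mul_of_nonneg_right h3 (fro2_nonneg Y))
  by_cases hq1 : q = 0
  · rw [hq1]; exact mul_nonneg hν (fro2_nonneg Y)
  · have hq2 : 0 < q := lt_of_le_of_ne hq0 (Ne.symm hq1)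
    nlinarith

/-- coefficient vector of the linear functional `Y ↦ [W,Y]_ij` (conjugated). -/
noncomputable def cf (W : Matrix (Fin n) (Fin n) K) (i j : Fin n) : Matrix (Fin n) (Fin n) K :=
  Wᴴ * Matrix.single i j (1 : K) - Matrix.single i j (1 : K) * Wᴴ

lemma trace_cf (W Y : Matrix (Fin n) (Fin n) K) (i j : Fin n) :
    ((cf W i j)ᴴ * Y).trace = (W * Y - Y * W) i j := by
  rw [cf, ← inner_comm, Matrix.conjTranspose_single, star_one, Matrix.trace]
  rw [Finset.sum_eq_single j]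
  · rw [Matrix.diag_apply, Matrix.single_mul_apply_same, one_mul]
  · intro b _ hb
    rw [Matrix.diag_apply, Matrix.single_mul_apply_of_ne _ _ _ _ _ hb]
  · intro h; exact absurd (Finset.mem_univ _) h

lemma cf_apply (W : Matrix (Fin n) (Fin n) K) (i j a b : Fin n) :
    cf W i j a b = (if b = j then star (W i a) else 0) - (if a = i then star (W b j) else 0) := by
  rw [cf, Matrix.sub_apply]
  congr 1
  · by_cases h : b = j
    · subst h
      rw [Matrix.mul_single_apply_same, mul_one, Matrix.conjTranspose_apply, if_pos rfl]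
    · rw [Matrix.mul_single_apply_of_ne _ _ _ _ _ h, if_neg h]
  · by_cases h : a = i
    · subst h
      rw [Matrix.single_mul_apply_same, one_mul, Matrix.conjTranspose_apply, if_pos rfl]
    · rw [Matrix.single_mul_apply_of_ne _ _ _ _ _ h, if_neg h]

lemma fro2_cf (W : Matrix (Fin n) (Fin n) K) (i j : Fin n) :
    fro2 (cf W i j) = bb W i j := by
  have key : ∀ a b, ‖cf W i j a b‖ ^ 2 = (if b = j then ‖W i a‖ ^ 2 else 0)
      + (if a = i then ‖W b j‖ ^ 2 else 0)
      - (if b = j then (if a = i then 2 * RCLike.re (star (W i a) * W b j) else 0) else 0) := by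
    intro a b
    rw [cf_apply]
    by_cases h1 : b = j <;> by_cases h2 : a = i
    · simp only [h1, h2, if_true]
      rw [← star_sub, norm_star, @norm_sub_sq K, RCLike.inner_apply, RCLike.star_def,
        mul_comm (W j j)]
      ring
    · simp [h1, h2]
    · simp [h1, h2]
    · simp [h1, h2]
  rw [fro2, bb]
  simp only [key, Finset.sum_sub_distrib, Finset.sum_add_distrib]
  simp

/-- Summed estimate for a finite family of matrices satisfying Bessel's inequality. -/
lemma sum_fro2_le {ι : Type} (S : Finset ι) (W : Matrix (Fin n) (Fin n) K) (g : Fin n → ℝ)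
    (hG : W * Wᴴ + Wᴴ * W = Matrix.diagonal (fun i => (g i : K)))
    (f : Fin n → Fin n → ℝ) (hf : Weight W g f) (hν : 0 ≤ nu W)
    (Y : ι → Matrix (Fin n) (Fin n) K) (hY : Orthonormal K (fun p => toE (Y p))) :
    ∑ p ∈ S, fro2 (W * Y p - Y p * W) ≤ (S.card + 2) * nu W := by
  have h1 : ∀ p, fro2 (W * Y p - Y p * W)
      = ∑ i, ∑ j, (1 - f i j) * ‖(W * Y p - Y p * W) i j‖ ^ 2
        + ∑ i, ∑ j, f i j * ‖(W * Y p - Y p * W) i j‖ ^ 2 := by
    intro p
    rw [fro2, ← Finset.sum_add_distrib]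
    refine Finset.sum_congr rfl fun i _ => ?_
    rw [← Finset.sum_add_distrib]
    refine Finset.sum_congr rfl fun j _ => ?_
    ring
  have h2 : ∀ p, ∑ i, ∑ j, (1 - f i j) * ‖(W * Y p - Y p * W) i j‖ ^ 2 ≤ nu W := by
    intro p
    have h := weighted_le W g hG f hf (Y p) hν
    have h' : fro2 (Y p) = 1 := by
      rw [← norm_toE, hY.1 p, one_pow]
    rwa [h', mul_one] at h
  have h3 : ∑ p ∈ S, ∑ i, ∑ j, f i j * ‖(W * Y p - Y p * W) i j‖ ^ 2 ≤ 2 * nu W := by
    refine le_trans ?_ hf.bound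
    rw [Finset.sum_comm]
    refine Finset.sum_le_sum fun i _ => ?_
    rw [Finset.sum_comm]
    refine Finset.sum_le_sum fun j _ => ?_
    rw [← Finset.mul_sum]
    refine mul_le_mul_of_nonneg_left ?_ (hf.nonneg i j)
    rw [← fro2_cf, ← norm_toE]
    have hb := hY.sum_inner_products_le (x := toE (cf W i j)) (s := S)
    refine le_trans (le_of_eq ?_) hb
    refine Finset.sum_congr rfl fun p _ => ?_
    rw [← trace_cf, ← inner_toE, norm_inner_symm]
  calc ∑ p ∈ S, fro2 (W * Y p - Y p * W)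
      = ∑ p ∈ S, (∑ i, ∑ j, (1 - f i j) * ‖(W * Y p - Y p * W) i j‖ ^ 2
        + ∑ i, ∑ j, f i j * ‖(W * Y p - Y p * W) i j‖ ^ 2) :=
        Finset.sum_congr rfl fun p _ => h1 p
    _ = ∑ p ∈ S, (∑ i, ∑ j, (1 - f i j) * ‖(W * Y p - Y p * W) i j‖ ^ 2)
        + ∑ p ∈ S, ∑ i, ∑ j, f i j * ‖(W * Y p - Y p * W) i j‖ ^ 2 := Finset.sum_add_distrib
    _ ≤ S.card * nu W + 2 * nu W := by
        refine add_le_add ?_ h3
        calc ∑ p ∈ S, (∑ i, ∑ j, (1 - f i j) * ‖(W * Y p - Y p * W) i j‖ ^ 2)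
            ≤ ∑ p ∈ S, nu W := Finset.sum_le_sum fun p _ => h2 p
          _ = S.card * nu W := by rw [Finset.sum_const, nsmul_eq_mul]
    _ = (S.card + 2) * nu W := by ring

/-- The operator `Y ↦ [X^*,[X,Y]]`. -/
noncomputable def TT (X Y : Matrix (Fin n) (Fin n) K) : Matrix (Fin n) (Fin n) K :=
  Xᴴ * (X * Y - Y * X) - (X * Y - Y * X) * Xᴴ

lemma mulVec_TT (X : Matrix (Fin n) (Fin n) K) (v : Fin n × Fin n → K) (a : Fin n × Fin n) :
    ((Matrix.of (fun p q : Fin n × Fin n =>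
        (Xᴴ * (X * Matrix.single q.1 q.2 (1:K) - Matrix.single q.1 q.2 (1:K) * X)
          - (X * Matrix.single q.1 q.2 (1:K) - Matrix.single q.1 q.2 (1:K) * X) * Xᴴ)
            p.1 p.2)) *ᵥ v) a = TT X (Matrix.of fun i j => v (i, j)) a.1 a.2 := by
  have hY : (Matrix.of fun i j => v (i, j)) =
      ∑ q : Fin n × Fin n, v q • Matrix.single q.1 q.2 (1:K) := by
    rw [Fintype.sum_prod_type]
    conv_lhs => rw [Matrix.matrix_eq_sum_single (Matrix.of fun i j => v (i, j))]
    refine Finset.sum_congr rfl fun i _ => Finset.sum_congr rfl fun j _ => ?_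
    rw [Matrix.smul_single]
    simp
  rw [hY]
  have hlin : TT X (∑ q : Fin n × Fin n, v q • Matrix.single q.1 q.2 (1:K))
      = ∑ q : Fin n × Fin n, v q • TT X (Matrix.single q.1 q.2 (1:K)) := by
    simp only [TT, Finset.mul_sum, Finset.sum_mul, ← Finset.sum_sub_distrib,
      Matrix.mul_smul, Matrix.smul_mul]
    refine Finset.sum_congr rfl fun q _ => ?_
    rw [← smul_sub, Matrix.mul_smul, Matrix.smul_mul, ← smul_sub]
  rw [hlin, Matrix.sum_apply, Matrix.mulVec, dotProduct]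
  refine Finset.sum_congr rfl fun q _ => ?_
  rw [Matrix.smul_apply, smul_eq_mul, mul_comm, Matrix.of_apply]
  rfl

/-- PART B (trace step). -/
theorem eigenvalue_sum_le (X : Matrix (Fin n) (Fin n) K) (z : K) (U : Matrix (Fin n) (Fin n) K)
    (hU : U * Uᴴ = 1) (hU' : Uᴴ * U = 1) (g : Fin n → ℝ)
    (W : Matrix (Fin n) (Fin n) K) (hW : W = Uᴴ * (X - z • (1 : Matrix (Fin n) (Fin n) K)) * U)
    (hG : W * Wᴴ + Wᴴ * W = Matrix.diagonal (fun i => (g i : K)))
    (f : Fin n → Fin n → ℝ) (hf : Weight W g f)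
    (hM : (Matrix.of (fun p q : Fin n × Fin n =>
        (Xᴴ * (X * Matrix.single q.1 q.2 (1:K) - Matrix.single q.1 q.2 (1:K) * X)
          - (X * Matrix.single q.1 q.2 (1:K) - Matrix.single q.1 q.2 (1:K) * X) * Xᴴ)
            p.1 p.2)).IsHermitian) (S : Finset (Fin n × Fin n)) :
    ∑ p ∈ S, hM.eigenvalues p ≤ (S.card + 2) * nu W := by
  rcases S.eq_empty_or_nonempty with rfl | ⟨p0, hp0⟩
  · simp only [Finset.sum_empty, Finset.card_empty, Nat.cast_zero, zero_add]
    refine mul_nonneg (by norm_num) ?_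
    rcases Nat.eq_zero_or_pos n with rfl | hn
    · simp [nu, fro2]
    · exact nu_nonneg_of_weight W g hG f hf ⟨0, hn⟩
  have hν : 0 ≤ nu W := nu_nonneg_of_weight W g hG f hf p0.1
  -- the eigenvector matrices
  set V : Fin n × Fin n → Matrix (Fin n) (Fin n) K :=
    fun p => Matrix.of fun i j => hM.eigenvectorBasis p (i, j) with hV
  have hVE : ∀ p, toE (V p) = hM.eigenvectorBasis p := by
    intro p
    ext q
    simp [toE, hV]
  set Y : Fin n × Fin n → Matrix (Fin n) (Fin n) K := fun p => Uᴴ * V p * U with hY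
  have hYo : Orthonormal K (fun p => toE (Y p)) := by
    rw [orthonormal_iff_ite]
    intro p q
    rw [inner_toE]
    have h1 : (Y p)ᴴ * Y q = Uᴴ * ((V p)ᴴ * V q) * U := by
      rw [hY]
      simp only [Matrix.conjTranspose_mul, Matrix.conjTranspose_conjTranspose]
      calc Uᴴ * ((V p)ᴴ * U) * (Uᴴ * V q * U) = Uᴴ * (V p)ᴴ * (U * Uᴴ) * V q * U := by
            simp only [Matrix.mul_assoc]
        _ = Uᴴ * ((V p)ᴴ * V q) * U := by rw [hU]; simp only [Matrix.mul_assoc, Matrix.mul_one]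
    rw [h1, Matrix.trace_mul_comm, ← Matrix.mul_assoc, hU, Matrix.one_mul, ← inner_toE,
      hVE, hVE]
    exact orthonormal_iff_ite.1 hM.eigenvectorBasis.orthonormal p q
  have hmain := sum_fro2_le S W g hG f hf hν Y hYo
  refine le_trans (le_of_eq ?_) hmain
  refine Finset.sum_congr rfl fun p _ => ?_
  -- eigenvalue = squared norm of commutator
  have hcomm : W * Y p - Y p * W = Uᴴ * (X * V p - V p * X) * U := by
    rw [hW, hY]
    have e1 : Uᴴ * (X - z • (1 : Matrix (Fin n) (Fin n) K)) * U * (Uᴴ * V p * U)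
        = Uᴴ * ((X - z • (1 : Matrix (Fin n) (Fin n) K)) * V p) * U := by
      calc _ = Uᴴ * (X - z • (1 : Matrix (Fin n) (Fin n) K)) * (U * Uᴴ) * V p * U := by
            simp only [Matrix.mul_assoc]
        _ = _ := by rw [hU]; simp only [Matrix.mul_assoc, Matrix.mul_one]
    have e2 : Uᴴ * V p * U * (Uᴴ * (X - z • (1 : Matrix (Fin n) (Fin n) K)) * U)
        = Uᴴ * (V p * (X - z • (1 : Matrix (Fin n) (Fin n) K))) * U := by
      calc _ = Uᴴ * V p * (U * Uᴴ) * (X - z • (1 : Matrix (Fin n) (Fin n) K)) * U := by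
            simp only [Matrix.mul_assoc]
        _ = _ := by rw [hU]; simp only [Matrix.mul_assoc, Matrix.mul_one]
    simp only
    rw [e1, e2, ← Matrix.sub_mul, ← Matrix.mul_sub]
    congr 2
    rw [Matrix.sub_mul, Matrix.mul_sub, Matrix.smul_mul, Matrix.mul_smul, Matrix.one_mul,
      Matrix.mul_one]
    abel
  rw [hcomm, fro2_conj U _ hU]
  rw [hM.eigenvalues_eq p]
  have e3 : dotProduct (star (hM.eigenvectorBasis p : Fin n × Fin n → K))
      ((Matrix.of (fun p q : Fin n × Fin n =>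
        (Xᴴ * (X * Matrix.single q.1 q.2 (1:K) - Matrix.single q.1 q.2 (1:K) * X)
          - (X * Matrix.single q.1 q.2 (1:K) - Matrix.single q.1 q.2 (1:K) * X) * Xᴴ)
            p.1 p.2)) *ᵥ (hM.eigenvectorBasis p : Fin n × Fin n → K))
      = ((V p)ᴴ * TT X (V p)).trace := by
    rw [← inner_toE, PiLp.inner_apply, dotProduct]
    refine Finset.sum_congr rfl fun a _ => ?_
    rw [mulVec_TT, RCLike.inner_apply, mul_comm]
    rfl
  have e4 : ((V p)ᴴ * TT X (V p)).trace = ((fro2 (X * V p - V p * X) : ℝ) : K) := by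
    have := inner_comm (Xᴴ) (V p) (X * V p - V p * X)
    rw [Matrix.conjTranspose_conjTranspose] at this
    rw [TT, this, fro2_eq]
  rw [e3, e4, RCLike.ofReal_re]

/-- PART B' -/
theorem nu_conj (X : Matrix (Fin n) (Fin n) K) (z : K) (U : Matrix (Fin n) (Fin n) K)
    (hn : 0 < n) (hU : U * Uᴴ = 1) (hU' : Uᴴ * U = 1) :
    nu (Uᴴ * (X - z • (1 : Matrix (Fin n) (Fin n) K)) * U) = nu X := by
  have hn' : (n : ℝ) ≠ 0 := by positivity
  have h1 : (Uᴴ * (X - z • (1 : Matrix (Fin n) (Fin n) K)) * U).trace = X.trace - n * z := by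
    rw [Matrix.trace_mul_comm, ← Matrix.mul_assoc, hU, Matrix.one_mul, Matrix.trace_sub,
      Matrix.trace_smul, Matrix.trace_one, Fintype.card_fin, smul_eq_mul, mul_comm]
  rw [nu, nu, fro2_conj U _ hU, h1]
  have hre : RCLike.re (z * star X.trace) = RCLike.re (star z * X.trace) := by
    rw [← RCLike.conj_re (star z * X.trace)]
    simp [RCLike.star_def]
  have h2 : fro2 (X - z • (1 : Matrix (Fin n) (Fin n) K))
      = fro2 X - 2 * RCLike.re (star z * X.trace) + n * ‖z‖ ^ 2 := by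
    have e1 : toE (X - z • (1 : Matrix (Fin n) (Fin n) K)) = toE X - z • toE 1 := by
      ext q; simp [toE]
    have e2 : ‖toE (1 : Matrix (Fin n) (Fin n) K)‖ ^ 2 = n := by
      rw [norm_toE]
      have : ((fro2 (1 : Matrix (Fin n) (Fin n) K) : ℝ) : K) = ((n : ℝ) : K) := by
        rw [fro2_eq]; simp
      exact RCLike.ofReal_injective this
    rw [← norm_toE, e1, @norm_sub_sq K, norm_toE, inner_smul_right, inner_toE, norm_smul,
      mul_pow, e2, Matrix.mul_one, Matrix.trace_conjTranspose, hre]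
    ring
  have h3 : ‖X.trace - n * z‖ ^ 2 = ‖X.trace‖ ^ 2 - 2 * n * RCLike.re (star z * X.trace)
      + n ^ 2 * ‖z‖ ^ 2 := by
    have e1 : RCLike.re ((n : K) * z * (starRingEnd K) X.trace)
        = n * RCLike.re (star z * X.trace) := by
      rw [← hre, mul_assoc, ← RCLike.ofReal_natCast, RCLike.re_ofReal_mul, RCLike.star_def]
    rw [@norm_sub_sq K, RCLike.inner_apply, e1, norm_mul, RCLike.norm_natCast]
    ring
  rw [h2, h3]
  field_simp
  ring

end Pool.Agent.Helper14.LW
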